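import Mathlib
import Pool.Agent.Y822.Q.Stm
import Pool.Agent.TH892.SW.S2

/-! The fundamental lemma for shifts all of whose members are rough, two sided. -/

set_option autoImplicit false

namespace Pool.Agent.Y50.QL

open Finset Filter
open Pool.Agent.Y822
open Pool.Agent.Y822.Q
open Pool.Agent.H373R2.T7 (pz Vz mem_pz)
open Pool.Agent.H387R2.Uni (nuT locT)
open Pool.Agent.W41 (JJ)

/-- forbidden classes of a system of shifts -/
def QC (H : Finset ℕ) (p n : ℕ) : Prop := ∃ t ∈ H, p ∣ n + t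

lemma QC_mod (H : Finset ℕ) (p n : ℕ) : QC H p (n % p) ↔ QC H p n := by
  unfold QC
  have h : ∀ t, p ∣ n % p + t ↔ p ∣ n + t := by
    intro t
    rw [Nat.dvd_iff_mod_eq_zero, Nat.dvd_iff_mod_eq_zero, Nat.mod_add_mod]
  simp only [h]

open Classical in
lemma card_QC (H : Finset ℕ) {p : ℕ} (hp : 0 < p) : ((range p).filter (fun r => QC H p r)).card = nuT H p := by
  unfold nuT
  refine card_nbij' (fun r => (p - r) % p) (fun r => (p - r) % p) ?_ ?_ ?_ ?_
  · intro r hr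
    rw [mem_coe, mem_filter, mem_range] at hr
    obtain ⟨h1, t, ht, hd⟩ := hr
    rw [mem_coe, mem_image]
    refine ⟨t, ht, ?_⟩
    have h2 : r + t ≡ r + (p - r) [MOD p] := by
      rw [show r + (p - r) = p by omega]
      exact ((Nat.modEq_zero_iff_dvd.2 hd).trans (Nat.modEq_zero_iff_dvd.2 (dvd_refl p)).symm)
    exact Nat.ModEq.add_left_cancel' r h2
  · intro x hx
    rw [mem_coe, mem_image] at hx
    obtain ⟨t, ht, rfl⟩ := hx
    rw [mem_coe, mem_filter, mem_range]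
    refine ⟨Nat.mod_lt _ hp, t, ht, ?_⟩
    have h1 : t % p < p := Nat.mod_lt _ hp
    have h2 : (p - t % p) % p + t ≡ (p - t % p) + t % p [MOD p] :=
      Nat.ModEq.add (Nat.mod_modEq _ _) (Nat.mod_modEq _ _).symm
    rw [Nat.sub_add_cancel h1.le] at h2
    exact Nat.modEq_zero_iff_dvd.1 (h2.trans (Nat.modEq_zero_iff_dvd.2 (dvd_refl p)))
  · intro r hr
    rw [mem_coe, mem_filter, mem_range] at hr
    have h1 := hr.1
    show (p - (p - r) % p) % p = r
    rcases Nat.eq_zero_or_pos r with h0 | h0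
    · subst h0; simp
    · rw [Nat.mod_eq_of_lt (show p - r < p by omega), show p - (p - r) = r by omega, Nat.mod_eq_of_lt h1]
  · intro x hx
    rw [mem_coe, mem_image] at hx
    obtain ⟨t, ht, rfl⟩ := hx
    have h1 : t % p < p := Nat.mod_lt _ hp
    show (p - (p - t % p) % p) % p = t % p
    rcases Nat.eq_zero_or_pos (t % p) with h0 | h0
    · rw [h0]; simp
    · rw [Nat.mod_eq_of_lt (show p - t % p < p by omega), show p - (p - t % p) = t % p by omega,
        Nat.mod_eq_of_lt h1]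

lemma ro_iffC (H : Finset ℕ) (y n : ℕ) : (∀ t ∈ H, Ro y (n + t)) ↔ ∀ p ∈ pz y, ¬ QC H p n := by
  constructor
  · rintro h p hp ⟨s, hs, hd⟩
    exact h s hs p (mem_pz.1 hp).2 (mem_pz.1 hp).1 hd
  · intro h s hs p hp hpy hd
    exact h p (mem_pz.2 ⟨hpy, hp⟩) ⟨s, hs, hd⟩

lemma prod_eqC (H : Finset ℕ) (y : ℕ) :
    ∏ p ∈ pz y, (1 - (nuT H p : ℝ) / p) = PT H y * Vz y ^ H.card := by
  unfold PT Vz locT
  rw [← prod_pow, ← prod_mul_distrib]
  refine prod_congr rfl fun p hp => ?_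
  have h2 : (2 : ℝ) ≤ p := by exact_mod_cast (mem_pz.1 hp).2.two_le
  have h3 : 0 < 1 - 1 / (p : ℝ) := by
    rw [sub_pos, div_lt_one (by linarith)]
    linarith
  rw [div_mul_cancel₀ _ (pow_pos h3 _).ne']

/-- **integers, two sided** -/
theorem int : IntStm := by
  classical
  intro k κ ε U hκ hκ1 hε hε1
  obtain ⟨C0, K0, hC0, hK0, hfl⟩ := Pool.Agent.TH892.SW.fl_set (k + 1)
  obtain ⟨b1, hb1⟩ := exists_pow_lt_of_lt_one hε (show (1 / 2 : ℝ) < 1 by norm_num)
  set b : ℕ := max C0 b1 with hb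
  have hCb : C0 ≤ b := le_max_left _ _
  have hbe : (1 / 2 : ℝ) ^ b ≤ ε :=
    (pow_le_pow_of_le_one (by norm_num) (by norm_num) (le_max_right C0 b1)).trans hb1.le
  have e1 := ev_logN (ev_pow_exp U (1 / 2) (2 * K0) (by norm_num))
  filter_upwards [yN_facts κ hκ hκ1 3 (2 * (4 * C0 * b + 1)), e1, ev_logN (eventually_ge_atTop (1 : ℝ)),
    eventually_ge_atTop 3] with N hyf h1 hL hN H hH
  obtain ⟨y1, y2, y3, y4, y5⟩ := hyf
  set y := yN κ N with hy
  set L := Real.log N with hLd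
  have hL0 : 0 < L := by linarith
  have hN0 : (0 : ℝ) < N := by positivity
  have key := hfl b hCb y (by omega) N (pz y) (QC H) (fun p hp => by
    refine ⟨(mem_pz.1 hp).2, (mem_pz.1 hp).1, ?_⟩
    rw [card_QC H (mem_pz.1 hp).2.pos, ← hH]
    exact nuT_le_card H p)
  have hfil : (Icc 1 N).filter (fun n => ∀ p ∈ pz y, ¬ QC H p (n % p)) =
      (Icc 1 N).filter (fun n => ∀ t ∈ H, Ro y (n + t)) := by
    refine filter_congr fun n _ => ?_
    rw [ro_iffC]
    constructor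
    · intro h p hp hq
      exact h p hp ((QC_mod H p n).2 hq)
    · intro h p hp hq
      exact h p hp ((QC_mod H p n).1 hq)
  rw [hfil] at key
  have hprod : ∏ p ∈ pz y, (1 - (((range p).filter (fun a => QC H p a)).card : ℝ) / p) =
      PT H y * Vz y ^ (k + 1) := by
    rw [← hH, ← prod_eqC]
    refine prod_congr rfl fun p hp => ?_
    rw [card_QC H (mem_pz.1 hp).2.pos]
  rw [hprod] at key
  have hV0 : 0 ≤ PT H y * Vz y ^ (k + 1) := by
    refine mul_nonneg (PT_nonneg H y) (pow_nonneg ?_ _)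
    unfold Vz
    refine prod_nonneg fun p hp => ?_
    have hp1 : (1 : ℝ) ≤ p := by exact_mod_cast (mem_pz.1 hp).2.one_lt.le
    have : 1 / (p : ℝ) ≤ 1 := by rw [div_le_one (by linarith)]; exact hp1
    linarith
  have herr : ((JJ y : ℝ) + 2) * ((y : ℝ) ^ (2 * (C0 * b)) * (K0 * (y : ℝ) ^ (2 * (C0 * b)))) ≤ N / L ^ U := by
    have g1 : ((JJ y : ℝ) + 2) ≤ 2 * y := by
      exact_mod_cast Pool.Agent.W41.JJ_small y (by omega)
    have g2 : (y : ℝ) ^ (2 * (C0 * b)) * (K0 * (y : ℝ) ^ (2 * (C0 * b))) = K0 * (y : ℝ) ^ (4 * C0 * b) := by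
      rw [show 4 * C0 * b = 2 * (C0 * b) + 2 * (C0 * b) by ring, pow_add]
      ring
    rw [g2]
    have hyr : (0 : ℝ) ≤ y := Nat.cast_nonneg _
    have g3 : ((y : ℝ) ^ (4 * C0 * b + 1)) ^ 2 ≤ N := by
      rw [← pow_mul, mul_comm]
      exact_mod_cast y4
    have g4 : (y : ℝ) ^ (4 * C0 * b + 1) ≤ Real.exp (L / 2) := by
      have h5 : (N : ℝ) = Real.exp (L / 2) ^ 2 := by
        rw [sq, ← Real.exp_add, add_halves, hLd, Real.exp_log hN0]
      rw [h5] at g3
      exact (pow_le_pow_iff_left₀ (by positivity) (Real.exp_pos _).le (by norm_num)).1 g3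
    rw [le_div_iff₀ (by positivity)]
    calc ((JJ y : ℝ) + 2) * (K0 * (y : ℝ) ^ (4 * C0 * b)) * L ^ U
        ≤ 2 * y * (K0 * (y : ℝ) ^ (4 * C0 * b)) * L ^ U := by gcongr
      _ = (y : ℝ) ^ (4 * C0 * b + 1) * (2 * K0 * L ^ U) := by rw [pow_succ]; ring
      _ ≤ Real.exp (L / 2) * Real.exp (1 / 2 * L) := by
          apply mul_le_mul g4 h1 (by positivity) (Real.exp_pos _).le
      _ = N := by
          rw [← Real.exp_add]
          have : L / 2 + 1 / 2 * L = L := by ring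
          rw [this, hLd, Real.exp_log hN0]
  have hNV : 0 ≤ (N : ℝ) * (PT H y * Vz y ^ (k + 1)) := by positivity
  refine key.trans (add_le_add (mul_le_mul_of_nonneg_right hbe hNV) herr)

end Pool.Agent.Y50.QL
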